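import Pool.Agent.H698R3.LocFinExample

set_option autoImplicit false

/-! A countable amenable LERF group that is not permutation stable. -/

namespace Pool.Agent.H698R3.Stab

open Filter Topology

/-- truncated cocycle -/
def bE (n : ℕ) : ((Fin n → F2) × (Fin n → F2)) →+ ((Fin n → F2) × (Fin n → F2)) →+ F2 :=
  AddMonoidHom.mk' (fun v => AddMonoidHom.mk' (fun w => ∑ i, v.1 i * w.2 i)
    (by
      intro w w'
      simp only [Prod.snd_add, Pi.add_apply, mul_add, Finset.sum_add_distrib]))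
    (by
      intro v v'
      apply AddMonoidHom.ext
      intro w
      simp only [AddMonoidHom.mk'_apply, AddMonoidHom.add_apply, Prod.fst_add, Pi.add_apply,
        add_mul, Finset.sum_add_distrib])

/-- asymptotically multiplicative maps to finite groups -/
noncomputable def tau (n : ℕ) (g : GG) : CE (bE n) := ⟨(tr n g.v.2.2.1, tr n g.v.2.2.2), g.z.1⟩

theorem tau_mul (g h : GG) : ∀ᶠ n in atTop, tau n (g * h) = tau n g * tau n h := by
  obtain ⟨n0, hn0⟩ := exists_bound g.v.2.2.1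
  filter_upwards [eventually_ge_atTop n0] with n hn
  apply CE.ext
  · rfl
  · show g.z.1 + h.z.1 + sg (g.v.2.2.1 * h.v.2.2.2) =
      g.z.1 + h.z.1 + ∑ i : Fin n, g.v.2.2.1 i * h.v.2.2.2 i
    rw [sg_eq_sum _ n]
    · rfl
    · intro j hj
      rw [Finsupp.mul_apply, hn0 j (hn.trans hj), zero_mul]

/-- the element that is killed -/
noncomputable def zz : GG := ⟨(1, 0, 0, 0), 0⟩
/-- the central element that survives -/
noncomputable def cc : GG := ⟨0, (1, 0)⟩

theorem cc_finite (Q : Type) [Group Q] [Finite Q] (ρ : GG →* Q) :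
    ∃ v : GG, ρ cc = ρ (zz⁻¹ * v⁻¹ * zz * v) := by
  classical
  let a : ℕ → GG := fun j => ⟨(0, 0, Finsupp.single j 1, 0), 0⟩
  obtain ⟨j, j', hne, hjj⟩ := Finite.exists_ne_map_eq_of_infinite (fun j => ρ (a j))
  let b : GG := ⟨(0, 0, 0, Finsupp.single j 1), 0⟩
  have h1 : ρ ((a j)⁻¹ * b⁻¹ * a j * b) = ρ ((a j')⁻¹ * b⁻¹ * a j' * b) := by
    have hjj' : ρ (a j) = ρ (a j') := hjj
    simp only [map_mul, map_inv, hjj']
  have h2 : (a j')⁻¹ * b⁻¹ * a j' * b = 1 := by
    rw [CE.comm_eq, bb_apply, bb_apply]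
    have e : (Finsupp.single j' (1 : F2)) * (Finsupp.single j (1 : F2)) = 0 := by
      ext k
      rw [Finsupp.mul_apply, Finsupp.single_apply, Finsupp.single_apply]
      by_cases hk : j' = k
      · subst hk
        simp [hne]
      · simp [hk]
    apply CE.ext
    · rfl
    · show (sg (Finsupp.single j' 1 * Finsupp.single j 1),
          (0 : F2) • (0 : ℕ →₀ F2) - Finsupp.single j' 1 * Finsupp.single j 1) -
          (sg ((0 : ℕ →₀ F2) * 0), (0 : F2) • (0 : ℕ →₀ F2) - 0 * 0) = 0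
      rw [e]
      simp
  have h3 : (a j)⁻¹ * b⁻¹ * a j * b = ⟨0, (1, -Finsupp.single j 1)⟩ := by
    rw [CE.comm_eq, bb_apply, bb_apply]
    have e : (Finsupp.single j (1 : F2)) * (Finsupp.single j (1 : F2)) = Finsupp.single j 1 := by
      ext k
      rw [Finsupp.mul_apply, Finsupp.single_apply]
      by_cases hk : j = k <;> simp [hk]
    apply CE.ext
    · rfl
    · show (sg (Finsupp.single j 1 * Finsupp.single j 1),
          (0 : F2) • (0 : ℕ →₀ F2) - Finsupp.single j 1 * Finsupp.single j 1) -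
          (sg ((0 : ℕ →₀ F2) * 0), (0 : F2) • (0 : ℕ →₀ F2) - 0 * 0) = _
      rw [e, sg_single]
      simp
  rw [h2, h3, map_one] at h1
  refine ⟨⟨(0, Finsupp.single j 1, 0, 0), 0⟩, ?_⟩
  have h4 : zz⁻¹ * (⟨(0, Finsupp.single j 1, 0, 0), 0⟩ : GG)⁻¹ * zz *
      ⟨(0, Finsupp.single j 1, 0, 0), 0⟩ = ⟨0, (0, Finsupp.single j 1)⟩ := by
    rw [CE.comm_eq, bb_apply, bb_apply]
    apply CE.ext
    · rfl
    · show (sg ((0 : ℕ →₀ F2) * 0), (1 : F2) • (Finsupp.single j 1 : ℕ →₀ F2) - 0 * 0) -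
          (sg ((0 : ℕ →₀ F2) * 0), (0 : F2) • (0 : ℕ →₀ F2) - 0 * 0) = _
      simp
  rw [h4]
  have h5 : cc = (⟨0, (1, -Finsupp.single j 1)⟩ : GG) * ⟨0, (0, Finsupp.single j 1)⟩ := by
    rw [CE.mul_def]
    apply CE.ext
    · show (0 : VV) = 0 + 0
      rw [add_zero]
    · show ((1 : F2), (0 : ℕ →₀ F2)) =
        (1, -Finsupp.single j 1) + (0, Finsupp.single j 1) + bb 0 0
      rw [map_zero, add_zero]
      simp
  rw [h5, map_mul, h1, one_mul]

end Pool.Agent.H698R3.Stab

namespace Pool.Agent.Results.MP_7bd500_al.LerfAmenableNotStable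

open Pool.Agent.H698R3.Stab

/-- There is a countable group that is amenable and LERF but not permutation stable. -/
theorem result : ∃ (G : Type) (_ : Group G), Countable G ∧ Amenable G ∧ LERF G ∧ ¬ PermStable G := by
  refine ⟨GG, inferInstance, inferInstance, GG_amenable, GG_lerf, ?_⟩
  rintro ⟨S, _, π, hπ, hst⟩
  refine not_stable_of_witness zz cc cc_finite (fun n => Pool.Agent.H698R3.CE (bE n)) tau tau_mul ?_ ?_ π hπ hst
  · refine Filter.Eventually.of_forall (fun n => ?_)
    rfl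
  · refine Filter.Eventually.of_forall (fun n h => ?_)
    have h1 : (1 : F2) = 0 := congrArg Pool.Agent.H698R3.CE.z h
    exact absurd h1 (by decide)

end Pool.Agent.Results.MP_7bd500_al.LerfAmenableNotStable
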